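import Pool.Agent.R920.CH.Est

/-!
# Small Chern roots are integers
-/

open Polynomial

namespace Pool.Agent.R920.CH

lemma int_of_small {z : ℤ} {a : ℂ} (h : a = z) (ha : ‖a‖ < 1) : a = 0 := by
  rw [h, Complex.norm_intCast] at ha
  have h1 : |z| < 1 := by exact_mod_cast ha
  rw [Int.abs_lt_one_iff] at h1
  rw [h, h1, Int.cast_zero]

lemma sum_norm_le (s : Multiset ℂ) (g : ℂ → ℂ) (B : ℝ) (hB : ∀ y ∈ s, ‖g y‖ ≤ B) :
    ‖(s.map g).sum‖ ≤ Multiset.card s * B := by
  induction s using Multiset.induction_on with
  | empty => simp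
  | cons a s ih =>
    rw [Multiset.map_cons, Multiset.sum_cons, Multiset.card_cons]
    have h1 := ih fun y hy => hB y (Multiset.mem_cons_of_mem hy)
    have h2 := hB a (Multiset.mem_cons_self a s)
    refine (norm_add_le _ _).trans ?_
    push_cast
    linarith

/-- Shifted roots. -/
theorem roots_int {n r h R : ℕ} (P : ℤ[X]) (hP : P.Monic) (hr : P.natDegree = r)
    (hRR : RiemannRoch n P) (hr1 : 1 ≤ r) (h30 : 30 * r ≤ h) (hR : 5 * R ≤ h)
    (hn : 2 * h + r ≤ n + 1) (c : ℤ) (hx : ∀ x ∈ rootsOf P, ‖x - c‖ ≤ R) :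
    ∀ x ∈ rootsOf P, ∃ a : ℤ, x = a := by
  have hcard : Multiset.card (rootsOf P) = r := by
    rw [rootsOf, splits_iff_card_roots.1 (IsAlgClosed.splits _), hP.natDegree_map, hr]
  set s : Multiset ℂ := (rootsOf P).map fun x => x - c with hs
  set w : ℂ → ℂ := fun y => ((2 * h).factorial : ℂ)⁻¹ *
    ∏ j ∈ Finset.range (2 * h), (y + h - j) with hw
  have hcs : Multiset.card s = r := by rw [hs, Multiset.card_map, hcard]
  have hsR : ∀ y ∈ s, ‖y‖ ≤ R := by
    intro y hy
    rw [hs, Multiset.mem_map] at hy
    obtain ⟨x, hx', rfl⟩ := hy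
    exact hx x hx'
  have hC : (0 : ℝ) < (2 * h).choose h := by
    exact_mod_cast Nat.choose_pos (by omega : h ≤ 2 * h)
  have key : ∀ t < Multiset.card s,
      (s.map fun y => w y * (descPochhammer ℂ t).eval y).sum = 0 := by
    intro t ht
    rw [hcs] at ht
    -- the integer-valued polynomial
    set f : ℚ[X] := (bin (2 * h)).comp (X + C ((h - c : ℤ) : ℚ)) *
      (bin t).comp (X + C ((-c : ℤ) : ℚ)) with hf
    have hfi : IsIntegerValued f := intVal_mul (intVal_comp (bin_int _) _)
      (intVal_comp (bin_int _) _)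
    have hfd : f.natDegree ≤ n := by
      rw [hf]
      refine natDegree_mul_le.trans ?_
      rw [natDegree_comp, natDegree_comp, natDegree_X_add_C, natDegree_X_add_C, mul_one, mul_one]
      have h1 := natDegree_bin (2 * h)
      have h2 := natDegree_bin t
      omega
    obtain ⟨z, hz⟩ := hRR f hfi hfd
    have hval : ∀ x : ℂ, aeval x f = w (x - c) * ((t.factorial : ℂ)⁻¹ *
        ∏ j ∈ Finset.range t, ((x - c) - j)) := by
      intro x
      rw [hf, map_mul, aeval_comp, aeval_comp, map_add, map_add, aeval_X, aeval_C, aeval_C,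
        aeval_bin, aeval_bin]
      congr 1
      · rw [hw]
        show _ = ((2 * h).factorial : ℂ)⁻¹ * ∏ j ∈ Finset.range (2 * h), (x - c + h - j)
        congr 1
        refine Finset.prod_congr rfl fun j _ => ?_
        simp only [eq_ratCast, Rat.cast_intCast]
        push_cast
        ring
      · congr 1
        refine Finset.prod_congr rfl fun j _ => ?_
        simp only [eq_ratCast, Rat.cast_intCast]
        push_cast
        ring
    have hsum : ((rootsOf P).map fun x => aeval x f).sum =
        (s.map fun y => w y * ((t.factorial : ℂ)⁻¹ * ∏ j ∈ Finset.range t, (y - j))).sum := by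
      rw [hs, Multiset.map_map]
      congr 1
      exact Multiset.map_congr rfl fun x _ => hval x
    rw [hsum] at hz
    have hsmall : ‖(s.map fun y => w y * ((t.factorial : ℂ)⁻¹ *
        ∏ j ∈ Finset.range t, (y - j))).sum‖ < 1 := by
      have h1 := sum_norm_le s (fun y => w y * ((t.factorial : ℂ)⁻¹ *
        ∏ j ∈ Finset.range t, (y - j)))
        (((R + h).choose h : ℝ) ^ 2 / (2 * h).choose h * ((R + r).choose r : ℝ)) (by
          intro y hy
          rw [norm_mul]
          exact mul_le_mul (norm_central y R h (hsR y hy)) (norm_small y R t r (hsR y hy) ht.le)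
            (norm_nonneg _) (by positivity))
      refine h1.trans_lt ?_
      rw [hcs]
      have h2 := main_bound r h R hr1 h30 hR
      have h3 : (r : ℝ) * (((R + h).choose h : ℝ) ^ 2 / (2 * h).choose h *
          ((R + r).choose r : ℝ)) =
          (r : ℝ) * ((R + r).choose r : ℝ) * ((R + h).choose h : ℝ) ^ 2 /
            (2 * h).choose h := by ring
      rw [h3, div_lt_one hC]
      exact h2
    have h0 := int_of_small hz hsmall
    have h1 : (fun y => w y * (descPochhammer ℂ t).eval y) =
        fun y => (t.factorial : ℂ) * (w y * ((t.factorial : ℂ)⁻¹ *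
          ∏ j ∈ Finset.range t, (y - j))) := by
      funext y
      rw [descPochhammer_eval_eq_prod_range]
      have : (t.factorial : ℂ) ≠ 0 := by exact_mod_cast t.factorial_ne_zero
      field_simp
    rw [h1, Multiset.sum_map_mul_left, h0, mul_zero]
  have hcore := core s w key
  intro x hx'
  have h1 := hcore (x - c) (by rw [hs]; exact Multiset.mem_map_of_mem _ hx')
  rw [hw] at h1
  have h2 : ((2 * h).factorial : ℂ)⁻¹ * ∏ j ∈ Finset.range (2 * h), (x - c + h - j) = 0 := h1
  rw [mul_eq_zero] at h2
  rcases h2 with h2 | h2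
  · exfalso
    rw [inv_eq_zero] at h2
    exact (Nat.factorial_ne_zero _) (by exact_mod_cast h2)
  · rw [Finset.prod_eq_zero_iff] at h2
    obtain ⟨j, _, hj⟩ := h2
    refine ⟨c - h + j, ?_⟩
    push_cast
    linear_combination hj

/-- A monic polynomial all of whose roots are integers. -/
lemma splits_of (P : ℤ[X]) (hP : P.Monic) (h : ∀ x ∈ rootsOf P, ∃ a : ℤ, x = a) :
    ∃ s : Multiset ℤ, P = (s.map fun a => X - C a).prod := by
  classical
  choose! g hg using h
  refine ⟨(rootsOf P).map g, ?_⟩
  apply Polynomial.map_injective (Int.castRingHom ℂ) Int.cast_injective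
  rw [Polynomial.map_multiset_prod, Multiset.map_map, Multiset.map_map]
  have h1 : ((rootsOf P).map ((Polynomial.map (Int.castRingHom ℂ) ∘ fun a => X - C a) ∘ g)) =
      (rootsOf P).map fun x => X - C x := by
    apply Multiset.map_congr rfl
    intro x hx
    show Polynomial.map (Int.castRingHom ℂ) (X - C (g x)) = X - C x
    rw [Polynomial.map_sub, map_X, map_C]
    congr 2
    rw [eq_intCast]
    exact (hg x hx).symm
  rw [h1]
  have h2 := (IsAlgClosed.splits (P.map (Int.castRingHom ℂ))).eq_prod_roots
  rw [(hP.map _).leadingCoeff, C_1, one_mul] at h2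
  exact h2

end Pool.Agent.R920.CH
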