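import Pool.Agent.R920.CH.Bin

/-!
# The Chern polynomial modulo primes
-/

open Polynomial

namespace Pool.Agent.R920.CH

lemma exists_fun {K : Type*} (s : Multiset K) {r : ℕ} (hs : Multiset.card s = r) :
    ∃ x : Fin r → K, (Finset.univ.val.map x : Multiset K) = s := by
  obtain ⟨l, rfl⟩ := Quot.exists_rep s
  have hl : l.length = r := hs
  subst hl
  refine ⟨l.get, ?_⟩
  rw [Fin.univ_val_map, List.ofFn_get]
  rfl

/-- The sum of the values of an integral polynomial at the roots is a universal expression. -/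
lemma sum_roots (P g : ℤ[X]) (hP : P.Monic) : ∃ m : ℤ, ∀ (K : Type) [Field K] [IsAlgClosed K],
    (((P.map (Int.castRingHom K)).roots).map fun x => aeval x g).sum = (m : K) := by
  classical
  set r := P.natDegree with hr
  let q : MvPolynomial (Fin r) ℤ := ∑ i, aeval (MvPolynomial.X i : MvPolynomial (Fin r) ℤ) g
  have hq : q.IsSymmetric := by
    intro e
    show MvPolynomial.rename e (∑ i, aeval (MvPolynomial.X i : MvPolynomial (Fin r) ℤ) g) = _
    rw [map_sum]
    have h1 : ∀ i, MvPolynomial.rename e (aeval (MvPolynomial.X i : MvPolynomial (Fin r) ℤ) g) =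
        aeval (MvPolynomial.X (e i) : MvPolynomial (Fin r) ℤ) g := by
      intro i
      rw [← Polynomial.aeval_algHom_apply, MvPolynomial.rename_X]
    simp only [h1]
    exact Equiv.sum_comp e (fun i => aeval (MvPolynomial.X i : MvPolynomial (Fin r) ℤ) g)
  obtain ⟨Q, hQ⟩ := MvPolynomial.esymmAlgHom_surjective ℤ
    (σ := Fin r) (n := r) (Fintype.card_fin r).le ⟨q, hq⟩
  have hQ' : MvPolynomial.aeval (fun i : Fin r => MvPolynomial.esymm (Fin r) ℤ (i + 1)) Q = q := by
    rw [← MvPolynomial.esymmAlgHom_apply, hQ]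
  refine ⟨MvPolynomial.eval (fun i : Fin r => (-1) ^ ((i : ℕ) + 1) * P.coeff (r - (i + 1))) Q, ?_⟩
  intro K _ _
  have hdeg : (P.map (Int.castRingHom K)).natDegree = r := hP.natDegree_map _
  have hcard : Multiset.card (P.map (Int.castRingHom K)).roots = r := by
    rw [splits_iff_card_roots.1 (IsAlgClosed.splits _), hdeg]
  obtain ⟨x, hx⟩ := exists_fun _ hcard
  have h1 : (((P.map (Int.castRingHom K)).roots).map fun x => aeval x g).sum =
      MvPolynomial.aeval x q := by
    rw [← hx, Multiset.map_map]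
    show _ = MvPolynomial.aeval x (∑ i, aeval (MvPolynomial.X i : MvPolynomial (Fin r) ℤ) g)
    rw [map_sum]
    show ∑ i, aeval (x i) g = _
    refine Finset.sum_congr rfl fun i _ => ?_
    rw [← Polynomial.aeval_algHom_apply, MvPolynomial.aeval_X]
  rw [h1, ← hQ']
  have h2 : MvPolynomial.aeval x (MvPolynomial.aeval
      (fun i : Fin r => MvPolynomial.esymm (Fin r) ℤ (i + 1)) Q) =
      MvPolynomial.aeval (fun i : Fin r =>
        MvPolynomial.aeval x (MvPolynomial.esymm (Fin r) ℤ (i + 1))) Q := by
    rw [← AlgHom.comp_apply]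
    congr 1
    apply MvPolynomial.algHom_ext
    intro i
    simp
  rw [h2]
  have h3 : ∀ i : Fin r, MvPolynomial.aeval x (MvPolynomial.esymm (Fin r) ℤ (i + 1)) =
      (((-1) ^ ((i : ℕ) + 1) * P.coeff (r - (i + 1)) : ℤ) : K) := by
    intro i
    rw [MvPolynomial.aeval_esymm_eq_multiset_esymm, hx]
    have hi := i.2
    have h4 := coeff_eq_esymm_roots_of_card (p := P.map (Int.castRingHom K))
      (by rw [hcard, hdeg]) (k := r - (i + 1)) (by rw [hdeg]; omega)
    rw [(hP.map _).leadingCoeff, hdeg, one_mul, coeff_map, eq_intCast,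
      show r - (r - ((i : ℕ) + 1)) = i + 1 by omega] at h4
    push_cast
    rw [h4, ← mul_assoc, ← mul_pow]
    norm_num
  simp only [h3]
  have h5 : MvPolynomial.aeval (fun i : Fin r =>
      (((-1) ^ ((i : ℕ) + 1) * P.coeff (r - (i + 1)) : ℤ) : K)) Q =
      (Int.castRingHom K) (MvPolynomial.eval
        (fun i : Fin r => (-1) ^ ((i : ℕ) + 1) * P.coeff (r - (i + 1))) Q) := by
    rw [MvPolynomial.eval₂_comp]
    rfl
  rw [h5]
  rfl

/-- Values at the members of a multiset, with powers. -/
lemma core_pow {K : Type*} [Field K] (s : Multiset K) (w : K → K)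
    (hcount : ∀ y ∈ s, ∀ [DecidableEq K], (s.count y : K) ≠ 0)
    (hs : ∀ t < Multiset.card s, (s.map fun y => w y * y ^ t).sum = 0) :
    ∀ y ∈ s, w y = 0 := by
  classical
  have key : ∀ g : K[X], g.natDegree < Multiset.card s →
      (s.map fun y => w y * g.eval y).sum = 0 := by
    intro g hg
    have h1 : (fun y => w y * g.eval y) =
        fun y => ∑ t ∈ Finset.range (g.natDegree + 1), g.coeff t * (w y * y ^ t) := by
      funext y
      rw [eval_eq_sum_range, Finset.mul_sum]
      exact Finset.sum_congr rfl fun t _ => by ring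
    rw [h1]
    show (s.map fun y => ((Finset.range (g.natDegree + 1)).val.map
      fun t => g.coeff t * (w y * y ^ t)).sum).sum = 0
    rw [Multiset.sum_map_sum_map]
    refine Finset.sum_eq_zero (s := Finset.range (g.natDegree + 1))
      (f := fun t => (s.map fun y => g.coeff t * (w y * y ^ t)).sum) fun t ht => ?_
    rw [Finset.mem_range] at ht
    rw [Multiset.sum_map_mul_left, hs t (by omega), mul_zero]
  intro y hy
  set g : K[X] := ∏ z ∈ s.toFinset.erase y, (X - C z) with hg
  have hyf : y ∈ s.toFinset := Multiset.mem_toFinset.2 hy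
  have hdeg : g.natDegree < Multiset.card s := by
    rw [hg, natDegree_finsetProd_X_sub_C_eq_card, Finset.card_erase_of_mem hyf]
    have h1 := Multiset.toFinset_card_le s
    have h2 : 0 < s.toFinset.card := Finset.card_pos.2 ⟨y, hyf⟩
    omega
  have h1 := key g hdeg
  rw [Finset.sum_multiset_map_count, Finset.sum_eq_single y] at h1
  · rw [nsmul_eq_mul, mul_eq_zero, mul_eq_zero] at h1
    rcases h1 with h1 | h1 | h1
    · exact absurd h1 (hcount y hy)
    · exact h1
    · exfalso
      rw [hg, eval_prod, Finset.prod_eq_zero_iff] at h1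
      obtain ⟨z, hz, hz0⟩ := h1
      rw [eval_sub, eval_X, eval_C, sub_eq_zero] at hz0
      exact (Finset.ne_of_mem_erase hz) hz0.symm
  · intro z hz hzy
    have h2 : g.eval z = 0 := by
      rw [hg, eval_prod]
      refine Finset.prod_eq_zero (Finset.mem_erase.2 ⟨hzy, hz⟩) ?_
      rw [eval_sub, eval_X, eval_C, sub_self]
    rw [h2, mul_zero, smul_zero]
  · intro h2
    exact absurd hyf h2

/-- The polynomial splits modulo primes. -/
theorem splits_mod {n r : ℕ} (P : ℤ[X]) (hP : P.Monic) (hr : P.natDegree = r)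
    (hRR : RiemannRoch n P) (p : ℕ) [hp : Fact p.Prime] (hrp : r < p) (hpn : p + r ≤ n + 1) :
    ∃ x : Fin r → ZMod p, P.map (Int.castRingHom (ZMod p)) = ∏ i, (X - C (x i)) := by
  classical
  let K := AlgebraicClosure (ZMod p)
  have hchar : CharP K p := by infer_instance
  have hp0 : (p : ℚ) ≠ 0 := by exact_mod_cast hp.out.ne_zero
  have hdeg : (P.map (Int.castRingHom K)).natDegree = r := by rw [hP.natDegree_map, hr]
  set s : Multiset K := (P.map (Int.castRingHom K)).roots with hs
  have hcard : Multiset.card s = r := by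
    rw [hs, splits_iff_card_roots.1 (IsAlgClosed.splits _), hdeg]
  have hpow : ∀ y ∈ s, y ^ p - y = 0 := by
    apply core_pow s (fun y => y ^ p - y)
    · intro y hy _ h0
      rw [CharP.cast_eq_zero_iff K p] at h0
      have h1 := Multiset.count_le_card y s
      rw [hcard] at h1
      have h2 := Multiset.count_pos.2 hy
      exact absurd (Nat.le_of_dvd h2 h0) (by omega)
    · intro t ht
      rw [hcard] at ht
      set g : ℤ[X] := (X ^ p - X) * X ^ t with hg
      obtain ⟨m, hm⟩ := sum_roots P g hP
      set f : ℚ[X] := C ((p : ℚ)⁻¹) * g.map (Int.castRingHom ℚ) with hf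
      have hfi : IsIntegerValued f := by
        intro a
        have h1 : (p : ℤ) ∣ a ^ p - a := by
          rw [← ZMod.intCast_zmod_eq_zero_iff_dvd]
          push_cast
          rw [ZMod.pow_card, sub_self]
        obtain ⟨b, hb⟩ := h1
        refine ⟨b * a ^ t, ?_⟩
        rw [hf, eval_mul, eval_C, eval_intCast_map, hg, eval_mul, eval_sub, eval_pow, eval_X,
          eval_pow, eval_X, Int.cast_id, hb, eq_intCast]
        push_cast
        field_simp
      have hfd : f.natDegree ≤ n := by
        rw [hf]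
        refine (natDegree_C_mul_le _ _).trans (natDegree_map_le.trans ?_)
        rw [hg]
        refine natDegree_mul_le.trans ?_
        have h1 : (X ^ p - X : ℤ[X]).natDegree ≤ p := by
          refine (natDegree_sub_le _ _).trans ?_
          rw [natDegree_X_pow, natDegree_X]
          exact max_le le_rfl hp.out.one_le
        have h2 : (X ^ t : ℤ[X]).natDegree ≤ t := by rw [natDegree_X_pow]
        omega
      obtain ⟨z, hz⟩ := hRR f hfi hfd
      have hmC := hm ℂ
      have h1 : ((rootsOf P).map fun x => aeval x f).sum = (p : ℂ)⁻¹ * (m : ℂ) := by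
        rw [← hmC, ← Multiset.sum_map_mul_left]
        congr 1
        refine Multiset.map_congr rfl fun x _ => ?_
        rw [hf, map_mul, aeval_C]
        congr 1
        · simp
        · rw [aeval_def, aeval_def, eval₂_map]
          exact congrArg (fun φ : ℤ →+* ℂ => eval₂ φ x g) (RingHom.ext_int _ _)
      rw [h1] at hz
      have hpC : (p : ℂ) ≠ 0 := by exact_mod_cast hp.out.ne_zero
      have h2 : m = p * z := by
        have h3 : (m : ℂ) = p * z := by
          rw [← hz, ← mul_assoc, mul_inv_cancel₀ hpC, one_mul]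
        exact_mod_cast h3
      have h3 := hm K
      have h4 : (((p : ℤ) * z : ℤ) : K) = 0 := by
        rw [Int.cast_mul, Int.cast_natCast, CharP.cast_eq_zero K p, zero_mul]
      rw [h2, h4] at h3
      rw [← h3]
      congr 1
      refine Multiset.map_congr rfl fun x _ => ?_
      rw [hg]
      simp
  have hbot : ∀ y ∈ s, ∃ a : ZMod p, algebraMap (ZMod p) K a = y := by
    intro y hy
    have h1 : y ∈ (⊥ : Subfield K) :=
      (Subfield.mem_bot_iff_pow_eq_self K p).2 (sub_eq_zero.1 (hpow y hy))
    rw [mem_bot_iff_intCast p K] at h1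
    obtain ⟨a, ha⟩ := h1
    exact ⟨a, by rw [map_intCast]; exact ha⟩
  choose! a ha using hbot
  obtain ⟨x, hx⟩ := exists_fun (s.map a) (r := r) (by rw [Multiset.card_map, hcard])
  refine ⟨x, ?_⟩
  apply Polynomial.map_injective (algebraMap (ZMod p) K) (algebraMap (ZMod p) K).injective
  rw [Polynomial.map_map, Polynomial.map_prod]
  have h1 : (algebraMap (ZMod p) K).comp (Int.castRingHom (ZMod p)) = Int.castRingHom K :=
    RingHom.ext_int _ _
  rw [h1]
  have h2 := (IsAlgClosed.splits (P.map (Int.castRingHom K))).eq_prod_roots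
  rw [(hP.map _).leadingCoeff, C_1, one_mul] at h2
  rw [h2, ← hs]
  have h3 : ∏ i, Polynomial.map (algebraMap (ZMod p) K) (X - C (x i)) =
      ((Finset.univ.val.map x).map fun b => (X - C (algebraMap (ZMod p) K b))).prod := by
    rw [Multiset.map_map]
    show _ = ∏ i, (X - C (algebraMap (ZMod p) K (x i)))
    refine Finset.prod_congr rfl fun i _ => ?_
    rw [Polynomial.map_sub, map_X, map_C]
  rw [h3, hx, Multiset.map_map]
  congr 1
  refine Multiset.map_congr rfl fun y hy => ?_
  show X - C y = X - C (algebraMap (ZMod p) K (a y))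
  rw [ha y hy]

/-- The product of the primes `p` with `r < p ≤ n + 1 - r`. -/
def primeProd (n r : ℕ) : ℕ :=
  ∏ p ∈ (Finset.range (n + 2 - r)).filter fun p => p.Prime ∧ r < p, p

/-- The polynomial modulo the product of the primes. -/
theorem splits_prod {n r : ℕ} (P : ℤ[X]) (hP : P.Monic) (hr : P.natDegree = r)
    (hRR : RiemannRoch n P) : ∃ a : Fin r → ℤ, ∀ k,
      (primeProd n r : ℤ) ∣ (P - ∏ i, (X - C (a i))).coeff k := by
  classical
  set T : Finset ℕ := (Finset.range (n + 2 - r)).filter fun p => p.Prime ∧ r < p with hT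
  have hTp : ∀ p ∈ T, p.Prime ∧ r < p ∧ p + r ≤ n + 1 := by
    intro p hp
    rw [hT, Finset.mem_filter, Finset.mem_range] at hp
    exact ⟨hp.2.1, hp.2.2, by omega⟩
  have hex : ∀ p ∈ T, ∃ x : Fin r → ℕ, P.map (Int.castRingHom (ZMod p)) =
      ∏ i, (X - C ((x i : ℕ) : ZMod p)) := by
    intro p hp
    have h1 := hTp p hp
    haveI : Fact p.Prime := ⟨h1.1⟩
    obtain ⟨x, hx⟩ := splits_mod P hP hr hRR p h1.2.1 h1.2.2
    refine ⟨fun i => (x i).val, ?_⟩
    rw [hx]
    refine Finset.prod_congr rfl fun i _ => ?_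
    rw [ZMod.natCast_val, ZMod.cast_id]
  choose! x hx using hex
  have hcrt : ∀ i : Fin r, ∃ a : ℕ, ∀ p ∈ T, a ≡ x p i [MOD p] := by
    intro i
    obtain ⟨a, ha⟩ := Nat.chineseRemainderOfFinset (fun p => x p i) (fun p => p) T
      (fun p hp => (hTp p hp).1.ne_zero) (by
        intro p hp q hq hpq
        exact (Nat.coprime_primes (hTp p hp).1 (hTp q hq).1).2 hpq)
    exact ⟨a, ha⟩
  choose a ha using hcrt
  refine ⟨fun i => a i, fun k => ?_⟩
  have h1 : (primeProd n r : ℤ) = ∏ p ∈ T, (p : ℤ) := by
    rw [primeProd, ← hT]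
    push_cast
    rfl
  rw [h1]
  apply Finset.prod_dvd_of_coprime
  · intro p hp q hq hpq
    exact Nat.isCoprime_iff_coprime.2 ((Nat.coprime_primes (hTp p hp).1 (hTp q hq).1).2 hpq)
  · intro p hp
    rw [← ZMod.intCast_zmod_eq_zero_iff_dvd]
    have h2 : ((P - ∏ i, (X - C ((a i : ℕ) : ℤ))).map (Int.castRingHom (ZMod p))) = 0 := by
      rw [Polynomial.map_sub, hx p hp, Polynomial.map_prod, sub_eq_zero]
      refine Finset.prod_congr rfl fun i _ => ?_
      rw [Polynomial.map_sub, map_X, map_C]
      congr 2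
      have h3 := (ZMod.natCast_eq_natCast_iff _ _ _).2 (ha i p hp)
      rw [eq_intCast, Int.cast_natCast]
      exact h3.symm
    have h3 := congrArg (fun q => q.coeff k) h2
    simpa [coeff_map] using h3

end Pool.Agent.R920.CH
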