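import Pool.Agent.R920.CH.TwoB

/-!
# Rank two: the theorem
-/

open Polynomial

namespace Pool.Agent.R920.CH

variable {n : ℕ} {c₁ c₂ : ℤ}

theorem square_mod (hRR : RiemannRoch n (poly2 c₁ c₂)) (p : ℕ) (hp : p.Prime) (hp2 : p ≠ 2)
    (hpn : p < n) : ∃ t : ℤ, (p : ℤ) ∣ c₁ ^ 2 - 4 * c₂ - t ^ 2 := by
  have hodd : p % 2 = 1 := Nat.odd_iff.1 (hp.odd_of_ne_two hp2)
  have hd := divis hRR (h := (p + 1) / 2) (by have := hp.two_le; omega) (by omega)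
  have h1 : 2 * ((p + 1) / 2) = p + 1 := by omega
  rw [h1] at hd
  have h2 : (p : ℤ) ∣ ∏ j ∈ Finset.range ((p + 1) / 2),
      (c₁ ^ 2 - 4 * c₂ - (2 * j + c₁ % 2) ^ 2) := by
    refine dvd_trans ?_ hd
    apply Dvd.dvd.mul_left
    exact_mod_cast (Nat.dvd_factorial hp.pos (Nat.le_succ p) : p ∣ (p + 1).factorial)
  rw [Prime.dvd_finsetProd_iff (Nat.prime_iff_prime_int.1 hp)] at h2
  obtain ⟨j, _, hj⟩ := h2
  exact ⟨_, hj⟩

theorem square_dvd (hRR : RiemannRoch n (poly2 c₁ c₂)) (p : ℕ) (hp : p.Prime) (hp2 : p ≠ 2)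
    (hpn : 2 * p ≤ n) (hD : (p : ℤ) ∣ c₁ ^ 2 - 4 * c₂) : (p : ℤ) ^ 2 ∣ c₁ ^ 2 - 4 * c₂ := by
  classical
  have hodd : p % 2 = 1 := Nat.odd_iff.1 (hp.odd_of_ne_two hp2)
  have hpi := Nat.prime_iff_prime_int.1 hp
  have hd := divis hRR (h := p) hp.one_le hpn
  have h2 : (p : ℤ) ^ 2 ∣ ∏ j ∈ Finset.range p, (c₁ ^ 2 - 4 * c₂ - (2 * j + c₁ % 2) ^ 2) := by
    refine dvd_trans ?_ hd
    apply Dvd.dvd.mul_left
    have h3 : p ^ 2 ∣ (2 * p).factorial := by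
      have h4 : p.factorial * p.factorial ∣ (p + p).factorial :=
        Nat.factorial_mul_factorial_dvd_factorial_add p p
      rw [← two_mul] at h4
      refine dvd_trans ?_ h4
      rw [pow_two]
      exact Nat.mul_dvd_mul (Nat.dvd_factorial hp.pos le_rfl) (Nat.dvd_factorial hp.pos le_rfl)
    exact_mod_cast h3
  -- the special index
  obtain ⟨j₀, hj₀, hj₀'⟩ : ∃ j₀ < p, (p : ℤ) ∣ 2 * (j₀ : ℤ) + c₁ % 2 := by
    rcases Int.emod_two_eq_zero_or_one c₁ with h0 | h0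
    · exact ⟨0, hp.pos, by rw [h0]; simp⟩
    · refine ⟨(p - 1) / 2, by omega, ?_⟩
      rw [h0]
      have : 2 * (((p - 1) / 2 : ℕ) : ℤ) + 1 = p := by omega
      rw [this]
  rw [← Finset.mul_prod_erase _ _ (Finset.mem_range.2 hj₀)] at h2
  have hcop : IsCoprime ((p : ℤ) ^ 2) (∏ j ∈ (Finset.range p).erase j₀,
      (c₁ ^ 2 - 4 * c₂ - (2 * (j : ℤ) + c₁ % 2) ^ 2)) := by
    apply IsCoprime.pow_left
    rw [Irreducible.coprime_iff_not_dvd hpi.irreducible]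
    intro hdv
    rw [Prime.dvd_finsetProd_iff hpi] at hdv
    obtain ⟨j, hj, hjd⟩ := hdv
    rw [Finset.mem_erase, Finset.mem_range] at hj
    have h3 : (p : ℤ) ∣ (2 * (j : ℤ) + c₁ % 2) ^ 2 := by
      have := dvd_sub hD hjd
      simpa using this
    have h4 := hpi.dvd_of_dvd_pow h3
    have h5 : (p : ℤ) ∣ 2 * ((j : ℤ) - j₀) := by
      have := dvd_sub h4 hj₀'
      have e : 2 * (j : ℤ) + c₁ % 2 - (2 * (j₀ : ℤ) + c₁ % 2) = 2 * ((j : ℤ) - j₀) := by ring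
      rwa [e] at this
    rcases hpi.dvd_or_dvd h5 with h6 | h6
    · have h7 : p ∣ 2 := by exact_mod_cast h6
      have := Nat.le_of_dvd (by norm_num) h7
      have := hp.two_le
      omega
    · have h7 : (j : ℤ) - j₀ = 0 := by
        apply Int.eq_zero_of_abs_lt_dvd h6
        rw [abs_lt]
        constructor <;> omega
      exact hj.1 (by omega)
  have h3 := hcop.dvd_of_dvd_mul_right h2
  have h4 : (p : ℤ) ^ 2 ∣ (2 * (j₀ : ℤ) + c₁ % 2) ^ 2 := pow_dvd_pow_of_dvd hj₀' 2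
  have h5 := dvd_add h3 h4
  simpa using h5

theorem neg_bound (hn : 2 ≤ n) (hRR : RiemannRoch n (poly2 c₁ c₂)) (hD : c₁ ^ 2 - 4 * c₂ < 0) :
    ((n : ℤ) - 1) ^ 2 < 5 * (4 * c₂ - c₁ ^ 2) := by
  by_contra hcon
  rw [not_lt] at hcon
  set h := n / 2 with hh
  have h1 : 1 ≤ h := by omega
  have hd := divis hRR (h := h) h1 (by omega)
  set A : ℤ := 4 * c₂ - c₁ ^ 2 with hA
  have hA0 : 0 < A := by omega
  obtain ⟨ε, hε, hε'⟩ : ∃ ε : ℕ, ε ≤ 1 ∧ c₁ % 2 = ε := by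
    rcases Int.emod_two_eq_zero_or_one c₁ with h0 | h0
    · exact ⟨0, by omega, by rw [h0]; rfl⟩
    · exact ⟨1, le_rfl, by rw [h0]; rfl⟩
  have hprod : ∏ j ∈ Finset.range h, (c₁ ^ 2 - 4 * c₂ - (2 * (j : ℤ) + c₁ % 2) ^ 2) =
      (-1) ^ h * ∏ j ∈ Finset.range h, (A + (2 * (j : ℤ) + ε) ^ 2) := by
    have e1 : ∀ j : ℕ, c₁ ^ 2 - 4 * c₂ - (2 * (j : ℤ) + c₁ % 2) ^ 2 =
        (-1) * (A + (2 * (j : ℤ) + ε) ^ 2) := by
      intro j
      rw [hε', hA]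
      ring
    simp only [e1]
    rw [Finset.prod_mul_distrib, Finset.prod_const, Finset.card_range]
  rw [hprod] at hd
  have hpos : 0 < ∏ j ∈ Finset.range h, (A + (2 * (j : ℤ) + ε) ^ 2) :=
    Finset.prod_pos fun j _ => by positivity
  have hd' : (2 ^ (2 * h - 1) * (2 * h).factorial : ℤ) ∣
      ∏ j ∈ Finset.range h, (A + (2 * (j : ℤ) + ε) ^ 2) := by
    rcases neg_one_pow_eq_or ℤ h with h2 | h2
    · rwa [h2, one_mul] at hd
    · rw [h2, neg_one_mul, dvd_neg] at hd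
      exact hd
  have hle := Int.le_of_dvd hpos hd'
  have hsmall := prod_small_neg h h1 (A : ℝ) (by exact_mod_cast hA0.le) (by
    have h3 : (5 : ℝ) * A ≤ ((n : ℝ) - 1) ^ 2 := by exact_mod_cast hcon
    have h4 : ((n : ℝ) - 1) ^ 2 ≤ (2 * h) ^ 2 := by
      apply pow_le_pow_left₀
      · have : (2 : ℝ) ≤ n := by exact_mod_cast hn
        linarith
      · have : n ≤ 2 * h + 1 := by omega
        have h5 : (n : ℝ) ≤ 2 * h + 1 := by exact_mod_cast this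
        linarith
    nlinarith) ε hε
  have hle' : (2 : ℝ) ^ (2 * h - 1) * ((2 * h).factorial : ℝ) ≤
      ∏ j ∈ Finset.range h, ((A : ℝ) + (2 * (j : ℝ) + ε) ^ 2) := by exact_mod_cast hle
  linarith

theorem pos_bound (hn : 4 ≤ n) (hRR : RiemannRoch n (poly2 c₁ c₂)) (hD : 0 ≤ c₁ ^ 2 - 4 * c₂)
    (hD2 : c₁ ^ 2 - 4 * c₂ < ((n : ℤ) - 3) ^ 2) : ∃ a b : ℤ, c₁ = a + b ∧ c₂ = a * b := by
  set h := n / 2 with hh
  have hd := divis hRR (h := h) (by omega) (by omega)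
  obtain ⟨ε, hε, hε'⟩ : ∃ ε : ℕ, ε ≤ 1 ∧ c₁ % 2 = ε := by
    rcases Int.emod_two_eq_zero_or_one c₁ with h0 | h0
    · exact ⟨0, by omega, by rw [h0]; rfl⟩
    · exact ⟨1, le_rfl, by rw [h0]; rfl⟩
  set D : ℤ := c₁ ^ 2 - 4 * c₂ with hDdef
  have hc : c₁ = 2 * (c₁ / 2) + ε := by omega
  have hε2 : (ε : ℤ) ^ 2 = ε := by
    rcases Nat.le_one_iff_eq_zero_or_eq_one.1 hε with h0 | h0 <;> rw [h0] <;> norm_num
  have hmod : D = 4 * ((c₁ / 2) ^ 2 + (c₁ / 2) * ε - c₂) + ε := by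
    rw [hDdef]
    nth_rewrite 1 [hc]
    linear_combination hε2
  have hεD : (ε : ℤ) ≤ D := by omega
  -- the square root
  obtain ⟨q, hq⟩ : ∃ q : ℕ, (q : ℤ) ^ 2 ≤ D ∧ D < ((q : ℤ) + 1) ^ 2 := by
    refine ⟨D.toNat.sqrt, ?_, ?_⟩
    · have h1 := Nat.sqrt_le' D.toNat
      have h2 : ((D.toNat.sqrt ^ 2 : ℕ) : ℤ) ≤ (D.toNat : ℤ) := by exact_mod_cast h1
      rw [Int.toNat_of_nonneg hD] at h2
      push_cast at h2
      exact h2
    · have h1 := Nat.lt_succ_sqrt' D.toNat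
      have h2 : (D.toNat : ℤ) < (((D.toNat.sqrt + 1) ^ 2 : ℕ) : ℤ) := by exact_mod_cast h1
      rw [Int.toNat_of_nonneg hD] at h2
      push_cast at h2
      exact h2
  have hqε : ε ≤ q := by
    by_contra hlt
    have h1 : q = 0 ∧ ε = 1 := by omega
    rw [h1.1] at hq
    rw [h1.2] at hεD
    have := hq.2
    norm_num at this
    omega
  set m := (q - ε) / 2 with hm
  have hm1 : (2 * m + ε : ℤ) ^ 2 ≤ D := by
    refine le_trans ?_ hq.1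
    apply pow_le_pow_left₀ (by positivity)
    omega
  have hm2 : D < (2 * m + 2 + ε : ℤ) ^ 2 := by
    refine lt_of_lt_of_le hq.2 ?_
    apply pow_le_pow_left₀ (by positivity)
    omega
  have hmh : m + 2 ≤ h := by
    have h1 : (2 * m + ε : ℤ) ^ 2 < (2 * h - 2) ^ 2 := by
      refine lt_of_le_of_lt hm1 (lt_of_lt_of_le hD2 ?_)
      apply pow_le_pow_left₀ (by omega)
      omega
    have h2 := lt_of_pow_lt_pow_left₀ 2 (by omega) h1
    omega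
  obtain ⟨k, hk⟩ : ∃ k, h = m + 1 + (k + 1) := ⟨h - m - 2, by omega⟩
  have hsmall := prod_small_pos m k ε hε D hm1 hm2
  rw [← hk] at hsmall
  rw [hε'] at hd
  have hzero := Int.eq_zero_of_abs_lt_dvd hd hsmall
  rw [Finset.prod_eq_zero_iff] at hzero
  obtain ⟨j, _, hj⟩ := hzero
  refine ⟨c₁ / 2 + j + ε, c₁ / 2 - j, ?_, ?_⟩
  · linarith
  · have h1 : D = (2 * (j : ℤ) + ε) ^ 2 := by linarith
    rw [hmod] at h1
    have h2 : 4 * c₂ = 4 * ((c₁ / 2 + j + ε) * (c₁ / 2 - j)) := by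
      linear_combination -h1 - hε2
    linarith

end Pool.Agent.R920.CH
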