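import Pool.Agent.R920.CH.Defs

/-!
# Binomial polynomials and estimates
-/

open Polynomial

namespace Pool.Agent.R920.CH

/-- The binomial polynomial. -/
noncomputable def bin (k : ℕ) : ℚ[X] := C ((k.factorial : ℚ)⁻¹) * descPochhammer ℚ k

lemma bin_int (k : ℕ) : IsIntegerValued (bin k) := by
  intro m
  refine ⟨Ring.choose m k, ?_⟩
  have h1 := Ring.descPochhammer_eq_factorial_smul_choose m k
  rw [bin, eval_mul, eval_C]
  have h2 : (descPochhammer ℚ k).eval (m : ℚ) = ((descPochhammer ℤ k).eval m : ℤ) := by
    rw [← descPochhammer_map (Int.castRingHom ℚ) k, eval_intCast_map]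
    simp
  have h3 : (descPochhammer ℤ k).eval m = k.factorial * Ring.choose m k := by
    rw [← nsmul_eq_mul, ← h1, ← Polynomial.eval_eq_smeval]
  rw [h2, h3]
  push_cast
  have : (k.factorial : ℚ) ≠ 0 := by exact_mod_cast k.factorial_ne_zero
  field_simp

lemma natDegree_bin (k : ℕ) : (bin k).natDegree ≤ k := by
  rw [bin]
  refine (natDegree_C_mul_le _ _).trans ?_
  rw [descPochhammer_natDegree]

lemma intVal_mul {f g : ℚ[X]} (hf : IsIntegerValued f) (hg : IsIntegerValued g) :
    IsIntegerValued (f * g) := by
  intro m
  obtain ⟨a, ha⟩ := hf m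
  obtain ⟨b, hb⟩ := hg m
  exact ⟨a * b, by rw [eval_mul, ha, hb]; push_cast; ring⟩

lemma intVal_comp {f : ℚ[X]} (hf : IsIntegerValued f) (c : ℤ) :
    IsIntegerValued (f.comp (X + C (c : ℚ))) := by
  intro m
  obtain ⟨a, ha⟩ := hf (m + c)
  refine ⟨a, ?_⟩
  rw [eval_comp, eval_add, eval_X, eval_C, ← ha]
  push_cast
  rfl

/-- The value of the binomial polynomial. -/
lemma aeval_bin (k : ℕ) (x : ℂ) : aeval x (bin k) =
    (k.factorial : ℂ)⁻¹ * ∏ j ∈ Finset.range k, (x - j) := by
  rw [bin, map_mul, aeval_C]
  congr 1
  · simp
  · have h2 : aeval x (descPochhammer ℚ k) = (descPochhammer ℂ k).eval x := by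
      rw [← descPochhammer_map (algebraMap ℚ ℂ) k, eval_map]
      rfl
    rw [h2, descPochhammer_eval_eq_prod_range]

/-- Values of polynomials at the members of a multiset. -/
lemma core (s : Multiset ℂ) (w : ℂ → ℂ)
    (hs : ∀ t < Multiset.card s, (s.map fun y => w y * (descPochhammer ℂ t).eval y).sum = 0) :
    ∀ y ∈ s, w y = 0 := by
  classical
  have key : ∀ d, d ≤ Multiset.card s → ∀ g : ℂ[X], g.natDegree < d →
      (s.map fun y => w y * g.eval y).sum = 0 := by
    intro d
    induction d with
    | zero =>
      intro _ g hg
      exact absurd hg (Nat.not_lt_zero _)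
    | succ d ih =>
      intro hd g hg
      set q : ℂ[X] := C (g.coeff d) * descPochhammer ℂ d with hq
      have hc : q.coeff d = g.coeff d := by
        rw [hq, coeff_C_mul]
        have h1 : (descPochhammer ℂ d).coeff d = 1 := by
          have h2 := monic_descPochhammer ℂ d
          rwa [Monic, leadingCoeff, descPochhammer_natDegree] at h2
        rw [h1, mul_one]
      have h3 : (s.map fun y => w y * (g - q).eval y).sum = 0 := by
        rcases Nat.eq_zero_or_pos d with hd0 | hd0
        · have h4 : g - q = 0 := by
            rw [hd0] at hg hc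
            have hg0 : g.natDegree = 0 := by omega
            have hq0 : q.natDegree = 0 := by
              rw [hq, hd0]
              simp
            rw [eq_C_of_natDegree_eq_zero hg0, eq_C_of_natDegree_eq_zero hq0, hc, sub_self]
          rw [h4]
          simp
        · apply ih (Nat.le_of_succ_le hd)
          have h5 : (g - q).natDegree ≤ d := by
            refine (natDegree_sub_le _ _).trans (max_le (Nat.le_of_lt_succ hg) ?_)
            rw [hq]
            refine (natDegree_C_mul_le _ _).trans ?_
            rw [descPochhammer_natDegree]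
          have h6 : (g - q).coeff d = 0 := by rw [coeff_sub, hc, sub_self]
          rcases Nat.lt_or_ge (g - q).natDegree d with h7 | h7
          · exact h7
          · exfalso
            have h8 : (g - q).natDegree = d := le_antisymm h5 h7
            have h9 : (g - q).leadingCoeff = 0 := by rw [leadingCoeff, h8, h6]
            rw [leadingCoeff_eq_zero] at h9
            rw [h9, natDegree_zero] at h8
            omega
      have h4 : (s.map fun y => w y * q.eval y).sum = 0 := by
        have h5 : (fun y => w y * q.eval y) =
            fun y => g.coeff d * (w y * (descPochhammer ℂ d).eval y) := by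
          funext y
          rw [hq, eval_mul, eval_C]
          ring
        rw [h5, Multiset.sum_map_mul_left, hs d (Nat.lt_of_succ_le hd), mul_zero]
      have h5 : (fun y => w y * g.eval y) =
          fun y => w y * (g - q).eval y + w y * q.eval y := by
        funext y
        rw [eval_sub]
        ring
      rw [h5, Multiset.sum_map_add, h3, h4, add_zero]
  intro y hy
  set g : ℂ[X] := ∏ z ∈ s.toFinset.erase y, (X - C z) with hg
  have hyf : y ∈ s.toFinset := Multiset.mem_toFinset.2 hy
  have hdeg : g.natDegree < Multiset.card s := by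
    rw [hg, natDegree_finsetProd_X_sub_C_eq_card, Finset.card_erase_of_mem hyf]
    have h1 := Multiset.toFinset_card_le s
    have h2 : 0 < s.toFinset.card := Finset.card_pos.2 ⟨y, hyf⟩
    omega
  have h1 := key _ le_rfl g hdeg
  rw [Finset.sum_multiset_map_count, Finset.sum_eq_single y] at h1
  · rw [nsmul_eq_mul, mul_eq_zero, mul_eq_zero] at h1
    rcases h1 with h1 | h1 | h1
    · exfalso
      have h2 : s.count y = 0 := by exact_mod_cast h1
      exact (Multiset.count_ne_zero.2 hy) h2
    · exact h1
    · exfalso
      rw [hg, eval_prod, Finset.prod_eq_zero_iff] at h1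
      obtain ⟨z, hz, hz0⟩ := h1
      rw [eval_sub, eval_X, eval_C, sub_eq_zero] at hz0
      exact (Finset.ne_of_mem_erase hz) hz0.symm
  · intro z hz hzy
    have h2 : g.eval z = 0 := by
      rw [hg, eval_prod]
      refine Finset.prod_eq_zero (Finset.mem_erase.2 ⟨hzy, hz⟩) ?_
      rw [eval_sub, eval_X, eval_C, sub_self]
    rw [h2, mul_zero, smul_zero]
  · intro h2
    exact absurd hyf h2

end Pool.Agent.R920.CH
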