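import Mathlib

/-!
# The Riemann-Roch conditions for the Chern roots: definitions
-/

open Polynomial

namespace Pool.Agent.R920.CH

/-- The polynomial `f` takes integral values at the integers. -/
def IsIntegerValued (f : ℚ[X]) : Prop := ∀ m : ℤ, ∃ z : ℤ, f.eval (m : ℚ) = z

/-- The complex roots of `P`, with their multiplicities. -/
noncomputable def rootsOf (P : ℤ[X]) : Multiset ℂ := (P.map (Int.castRingHom ℂ)).roots

/-- The Riemann-Roch conditions on the projective space of dimension `n`: for all integer-valued
polynomials `f` of degree at most `n` the sum of the values of `f` at the roots of `P` is an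
integer. They hold if `P = T ^ r - c₁ T ^ (r - 1) + … ± c_r`, where `c_i` are the Chern classes of a
complex vector bundle of rank `r`. -/
def RiemannRoch (n : ℕ) (P : ℤ[X]) : Prop :=
  ∀ f : ℚ[X], IsIntegerValued f → f.natDegree ≤ n →
    ∃ z : ℤ, ((rootsOf P).map fun x => aeval x f).sum = z

end Pool.Agent.R920.CH
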