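import Pool.Agent.R920.CH.Bin

/-!
# Estimates
-/

open Polynomial

namespace Pool.Agent.R920.CH

/-- The product of consecutive integers. -/
lemma prod_shift (R h : ℕ) : (∏ j ∈ Finset.range h, ((R : ℝ) + (j + 1))) =
    h.factorial * (R + h).choose h := by
  have h1 := Nat.ascFactorial_eq_factorial_mul_choose R h
  have h2 : ((R + 1).ascFactorial h : ℝ) = ∏ j ∈ Finset.range h, ((R : ℝ) + (j + 1)) := by
    rw [Nat.ascFactorial_eq_prod_range]
    push_cast
    exact Finset.prod_congr rfl fun j _ => by ring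
  rw [← h2, h1]
  push_cast
  rfl

/-- The value of the central binomial polynomial at a small number. -/
lemma norm_central (y : ℂ) (R h : ℕ) (hy : ‖y‖ ≤ R) :
    ‖((2 * h).factorial : ℂ)⁻¹ * ∏ j ∈ Finset.range (2 * h), (y + h - j)‖ ≤
      ((R + h).choose h : ℝ) ^ 2 / (2 * h).choose h := by
  have h1 : ∏ j ∈ Finset.range (2 * h), (y + h - j) =
      (∏ j ∈ Finset.range h, (y + (j + 1))) * ∏ j ∈ Finset.range h, (y - j) := by
    rw [two_mul, Finset.prod_range_add, ← Finset.prod_range_reflect (fun j : ℕ => y + h - j)]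
    congr 1
    · refine Finset.prod_congr rfl fun j hj => ?_
      rw [Finset.mem_range] at hj
      rw [Nat.cast_sub (by omega), Nat.cast_sub (by omega)]
      push_cast
      ring
    · refine Finset.prod_congr rfl fun j hj => ?_
      push_cast
      ring
  have h2 : ‖∏ j ∈ Finset.range h, (y + (j + 1))‖ ≤ h.factorial * (R + h).choose h := by
    rw [← prod_shift, norm_prod]
    refine Finset.prod_le_prod (fun _ _ => norm_nonneg _) fun j _ => ?_
    refine (norm_add_le _ _).trans (add_le_add hy ?_)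
    have : ‖((j : ℂ) + 1)‖ = j + 1 := by
      rw [← Nat.cast_succ, Complex.norm_natCast]
      push_cast
      rfl
    rw [this]
  have h3 : ‖∏ j ∈ Finset.range h, (y - j)‖ ≤ h.factorial * (R + h).choose h := by
    rw [← prod_shift, norm_prod]
    refine Finset.prod_le_prod (fun _ _ => norm_nonneg _) fun j _ => ?_
    refine (norm_sub_le _ _).trans (add_le_add hy ?_)
    rw [Complex.norm_natCast]
    linarith
  have h4 : (((2 * h).factorial : ℕ) : ℝ) = (2 * h).choose h * h.factorial * h.factorial := by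
    have := Nat.choose_mul_factorial_mul_factorial (n := 2 * h) (k := h) (by omega)
    have e : 2 * h - h = h := by omega
    rw [e] at this
    exact_mod_cast this.symm
  have hf : (0 : ℝ) < h.factorial := by exact_mod_cast h.factorial_pos
  have hc : (0 : ℝ) < (2 * h).choose h := by
    exact_mod_cast Nat.choose_pos (by omega : h ≤ 2 * h)
  rw [h1, norm_mul, norm_mul, norm_inv, Complex.norm_natCast, h4]
  calc ((2 * h).choose h * h.factorial * h.factorial : ℝ)⁻¹ *
        (‖∏ j ∈ Finset.range h, (y + (j + 1))‖ * ‖∏ j ∈ Finset.range h, (y - j)‖)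
      ≤ ((2 * h).choose h * h.factorial * h.factorial : ℝ)⁻¹ *
        ((h.factorial * (R + h).choose h) * (h.factorial * (R + h).choose h)) := by gcongr
    _ = ((R + h).choose h : ℝ) ^ 2 / (2 * h).choose h := by
      field_simp

/-- The value of a binomial polynomial of small degree. -/
lemma norm_small (y : ℂ) (R t r : ℕ) (hy : ‖y‖ ≤ R) (ht : t ≤ r) :
    ‖((t.factorial : ℂ)⁻¹ * ∏ j ∈ Finset.range t, (y - j))‖ ≤ ((R + r).choose r : ℝ) := by
  have h3 : ‖∏ j ∈ Finset.range t, (y - j)‖ ≤ t.factorial * (R + t).choose t := by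
    rw [← prod_shift, norm_prod]
    refine Finset.prod_le_prod (fun _ _ => norm_nonneg _) fun j _ => ?_
    refine (norm_sub_le _ _).trans (add_le_add hy ?_)
    rw [Complex.norm_natCast]
    linarith
  have hf : (0 : ℝ) < t.factorial := by exact_mod_cast t.factorial_pos
  rw [norm_mul, norm_inv, Complex.norm_natCast]
  calc (t.factorial : ℝ)⁻¹ * ‖∏ j ∈ Finset.range t, (y - j)‖
      ≤ (t.factorial : ℝ)⁻¹ * (t.factorial * (R + t).choose t) := by gcongr
    _ = ((R + t).choose t : ℝ) := by field_simp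
    _ ≤ ((R + r).choose r : ℝ) := by
      have h5 : (R + t).choose t ≤ (R + r).choose r := by
        have e1 : (R + t).choose t = (R + t).choose R := by
          rw [← Nat.choose_symm (by omega : t ≤ R + t)]
          congr 1
          omega
        have e2 : (R + r).choose r = (R + r).choose R := by
          rw [← Nat.choose_symm (by omega : r ≤ R + r)]
          congr 1
          omega
        rw [e1, e2]
        exact Nat.choose_le_choose R (by omega)
      exact_mod_cast h5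

/-- An estimate for the binomial coefficient. -/
lemma choose_le_pow (a b : ℕ) (p q : ℝ) (hp : 0 < p) (hq : 0 < q) (hpq : p + q = 1) :
    ((a + b).choose b : ℝ) ≤ p⁻¹ ^ a * q⁻¹ ^ b := by
  have h1 : (p + q) ^ (a + b) = 1 := by rw [hpq, one_pow]
  rw [add_pow] at h1
  have h2 : p ^ a * q ^ (a + b - a) * ((a + b).choose a : ℝ) ≤ 1 := by
    rw [← h1]
    exact Finset.single_le_sum (f := fun m => p ^ m * q ^ (a + b - m) * ((a + b).choose m : ℝ))
      (fun m _ => by positivity) (Finset.mem_range.2 (by omega))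
  have e1 : (a + b).choose b = (a + b).choose a := by
    rw [← Nat.choose_symm (by omega : b ≤ a + b)]
    congr 1
    omega
  have e2 : a + b - a = b := by omega
  rw [e2] at h2
  rw [e1, inv_pow, inv_pow, ← mul_inv]
  have h3 : 0 < p ^ a * q ^ b := by positivity
  rw [← one_div, le_div_iff₀ h3]
  linarith

lemma sq_lt (h : ℕ) (hh : 30 ≤ h) : ((h : ℝ) ^ 2 / 15) ^ 30 < 470 ^ h := by
  induction h, hh using Nat.le_induction with
  | base => norm_num
  | succ h hh ih =>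
    have h1 : (((h + 1 : ℕ) : ℝ) ^ 2 / 15) ^ 30 ≤ 470 * ((h : ℝ) ^ 2 / 15) ^ 30 := by
      have h2 : ((h + 1 : ℕ) : ℝ) ^ 2 / 15 ≤ (31 / 30) ^ 2 * ((h : ℝ) ^ 2 / 15) := by
        have h3 : ((h + 1 : ℕ) : ℝ) ≤ 31 / 30 * h := by
          push_cast
          have : (30 : ℝ) ≤ h := by exact_mod_cast hh
          linarith
        calc ((h + 1 : ℕ) : ℝ) ^ 2 / 15 ≤ (31 / 30 * h) ^ 2 / 15 := by gcongr
          _ = _ := by ring
      calc (((h + 1 : ℕ) : ℝ) ^ 2 / 15) ^ 30
          ≤ ((31 / 30) ^ 2 * ((h : ℝ) ^ 2 / 15)) ^ 30 := by gcongr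
        _ = ((31 / 30) ^ 2) ^ 30 * ((h : ℝ) ^ 2 / 15) ^ 30 := by rw [mul_pow]
        _ ≤ 470 * ((h : ℝ) ^ 2 / 15) ^ 30 := by
          apply mul_le_mul_of_nonneg_right _ (by positivity)
          norm_num
    calc (((h + 1 : ℕ) : ℝ) ^ 2 / 15) ^ 30 ≤ 470 * ((h : ℝ) ^ 2 / 15) ^ 30 := h1
      _ < 470 * 470 ^ h := by gcongr
      _ = 470 ^ (h + 1) := by ring

/-- The main estimate. -/
lemma main_bound (r h R : ℕ) (hr : 1 ≤ r) (h30 : 30 * r ≤ h) (hR : 5 * R ≤ h) :
    (r : ℝ) * ((R + r).choose r : ℝ) * ((R + h).choose h : ℝ) ^ 2 < ((2 * h).choose h : ℝ) := by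
  have hh : 30 ≤ h := by omega
  have hhr : (30 : ℝ) ≤ h := by exact_mod_cast hh
  have h1 : ((R + r).choose r : ℝ) ≤ (11 / 10) ^ R * 11 ^ r := by
    have := choose_le_pow R r (10 / 11) (1 / 11) (by norm_num) (by norm_num) (by norm_num)
    norm_num at this ⊢
    exact this
  have h2 : ((R + h).choose h : ℝ) ≤ 6 ^ R * (6 / 5) ^ h := by
    have := choose_le_pow R h (1 / 6) (5 / 6) (by norm_num) (by norm_num) (by norm_num)
    norm_num at this ⊢
    exact this
  have h3 : (4 : ℝ) ^ h / (2 * h) ≤ ((2 * h).choose h : ℝ) := by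
    have := Nat.four_pow_le_two_mul_self_mul_centralBinom h (by omega)
    rw [Nat.centralBinom] at this
    rw [div_le_iff₀ (by positivity)]
    have h5 : (4 : ℝ) ^ h ≤ 2 * h * (2 * h).choose h := by exact_mod_cast this
    linarith
  set A : ℝ := (r : ℝ) * ((R + r).choose r : ℝ) * ((R + h).choose h : ℝ) ^ 2 with hA
  have hA0 : 0 ≤ A := by positivity
  have h4 : A ≤ r * (((11 / 10) ^ R * 11 ^ r) * (6 ^ R * (6 / 5) ^ h) ^ 2) := by
    rw [hA, mul_assoc]
    gcongr
  have h5 : A ^ 30 < ((4 : ℝ) ^ h / (2 * h)) ^ 30 := by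
    have e1 : ((r : ℝ) * (((11 / 10) ^ R * 11 ^ r) * (6 ^ R * (6 / 5) ^ h) ^ 2)) ^ 30 =
        (r : ℝ) ^ 30 * ((11 / 10 * 36) ^ (30 * R) * 11 ^ (30 * r) * ((6 / 5) ^ 60) ^ h) := by
      have e2 : ((6 : ℝ) ^ R * (6 / 5) ^ h) ^ 2 = 36 ^ R * ((6 / 5) ^ 2) ^ h := by
        rw [mul_pow, ← pow_mul, ← pow_mul, ← pow_mul, mul_comm R 2, pow_mul (6 : ℝ) 2 R,
          mul_comm h 2]
        norm_num
      rw [e2, mul_pow, mul_pow, mul_pow, mul_pow, pow_mul (11 / 10 * 36 : ℝ) 30 R,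
        pow_mul (11 : ℝ) 30 r, mul_pow (11 / 10 : ℝ) 36 30, mul_pow ((11 / 10 : ℝ) ^ 30),
        ← pow_mul (11 / 10 : ℝ) R 30, ← pow_mul (11 / 10 : ℝ) 30 R, ← pow_mul (11 : ℝ) r 30,
        ← pow_mul (11 : ℝ) 30 r, ← pow_mul (36 : ℝ) R 30, ← pow_mul (36 : ℝ) 30 R,
        mul_comm R 30, mul_comm r 30, ← pow_mul ((6 / 5 : ℝ) ^ 2) h 30,
        ← pow_mul (6 / 5 : ℝ) 2, ← pow_mul (6 / 5 : ℝ) 60 h]
      have e3 : 2 * (h * 30) = 60 * h := by ring
      rw [e3]
      ring
    have e2 : ((r : ℝ) * (((11 / 10) ^ R * 11 ^ r) * (6 ^ R * (6 / 5) ^ h) ^ 2)) ^ 30 ≤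
        (h / 30 : ℝ) ^ 30 * (((11 / 10 * 36) ^ 6 * 11 * (6 / 5) ^ 60) ^ h) := by
      rw [e1]
      have e3 : (r : ℝ) ≤ h / 30 := by
        rw [le_div_iff₀ (by norm_num)]
        have : ((30 * r : ℕ) : ℝ) ≤ h := by exact_mod_cast h30
        push_cast at this
        linarith
      have e4 : ((11 / 10 * 36 : ℝ)) ^ (30 * R) ≤ ((11 / 10 * 36) ^ 6) ^ h := by
        rw [← pow_mul]
        exact pow_le_pow_right₀ (by norm_num) (by omega)
      have e5 : (11 : ℝ) ^ (30 * r) ≤ 11 ^ h := pow_le_pow_right₀ (by norm_num) (by omega)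
      rw [mul_pow (((11 / 10 * 36 : ℝ)) ^ 6 * 11), mul_pow (((11 / 10 * 36 : ℝ)) ^ 6)]
      gcongr
    have e3 : (h / 30 : ℝ) ^ 30 * (((11 / 10 * 36) ^ 6 * 11 * (6 / 5) ^ 60) ^ h) * (2 * h) ^ 30 <
        (4 ^ h) ^ 30 := by
      have e4 : (h / 30 : ℝ) ^ 30 * (((11 / 10 * 36) ^ 6 * 11 * (6 / 5) ^ 60) ^ h) *
          (2 * h) ^ 30 = ((h : ℝ) ^ 2 / 15) ^ 30 *
            (((11 / 10 * 36) ^ 6 * 11 * (6 / 5) ^ 60) ^ h) := by
        have : ((h : ℝ) ^ 2 / 15) ^ 30 = (h / 30 : ℝ) ^ 30 * (2 * h) ^ 30 := by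
          rw [← mul_pow]
          congr 1
          ring
        rw [this]
        ring
      rw [e4]
      calc ((h : ℝ) ^ 2 / 15) ^ 30 * (((11 / 10 * 36) ^ 6 * 11 * (6 / 5) ^ 60) ^ h)
          < 470 ^ h * (((11 / 10 * 36) ^ 6 * 11 * (6 / 5) ^ 60) ^ h) :=
            mul_lt_mul_of_pos_right (sq_lt h hh) (by positivity)
        _ = (470 * ((11 / 10 * 36) ^ 6 * 11 * (6 / 5) ^ 60)) ^ h := (mul_pow _ _ _).symm
        _ ≤ ((4 : ℝ) ^ 30) ^ h := by
          apply pow_le_pow_left₀ (by positivity)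
          norm_num
        _ = (4 ^ h) ^ 30 := by rw [← pow_mul, ← pow_mul, mul_comm]
    rw [div_pow, lt_div_iff₀ (by positivity)]
    calc A ^ 30 * (2 * h) ^ 30
        ≤ ((r : ℝ) * (((11 / 10) ^ R * 11 ^ r) * (6 ^ R * (6 / 5) ^ h) ^ 2)) ^ 30 *
          (2 * h) ^ 30 := by gcongr
      _ ≤ _ := by gcongr
      _ < _ := e3
  exact (lt_of_pow_lt_pow_left₀ 30 (by positivity) h5).trans_le h3

end Pool.Agent.R920.CH
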