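import Pool.Agent.R920.CH.Main

/-!
# Small Chern classes
-/

open Polynomial

namespace Pool.Agent.R920.CH

lemma geom_half (r : ℕ) : ∑ i ∈ Finset.range r, (1 / 2 : ℝ) ^ (r - i) < 1 := by
  have h : ∀ r : ℕ, ∑ i ∈ Finset.range r, (1 / 2 : ℝ) ^ (r - i) = 1 - (1 / 2) ^ r := by
    intro r
    induction r with
    | zero => simp
    | succ r ih =>
      rw [Finset.sum_range_succ]
      have h1 : ∑ i ∈ Finset.range r, (1 / 2 : ℝ) ^ (r + 1 - i) =
          (1 / 2) * ∑ i ∈ Finset.range r, (1 / 2 : ℝ) ^ (r - i) := by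
        rw [Finset.mul_sum]
        refine Finset.sum_congr rfl fun i hi => ?_
        rw [Finset.mem_range] at hi
        rw [← pow_succ', Nat.succ_sub hi.le]
      rw [h1, ih]
      have h2 : r + 1 - r = 1 := by omega
      rw [h2]
      ring
  rw [h]
  have : (0 : ℝ) < (1 / 2) ^ r := by positivity
  linarith

lemma root_bound {Q : ℤ[X]} {r : ℕ} {ρ : ℝ} (hρ : 0 < ρ) (hQ : Q.Monic) (hr : Q.natDegree = r)
    (hc : ∀ i < r, |((Q.coeff i : ℤ) : ℝ)| ≤ ρ ^ (r - i)) {y : ℂ}
    (hy : aeval y Q = 0) : ‖y‖ ≤ 2 * ρ := by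
  by_contra hcon
  rw [not_le] at hcon
  have hy0 : 0 < ‖y‖ := by linarith
  have h1 : y ^ r = - ∑ i ∈ Finset.range r, ((Q.coeff i : ℤ) : ℂ) * y ^ i := by
    have h2 : aeval y Q = ∑ i ∈ Finset.range (r + 1), ((Q.coeff i : ℤ) : ℂ) * y ^ i := by
      rw [aeval_eq_sum_range, hr]
      exact Finset.sum_congr rfl fun i _ => by rw [zsmul_eq_mul]
    rw [hy, Finset.sum_range_succ] at h2
    have h3 : Q.coeff r = 1 := by
      have := hQ
      rwa [Monic, leadingCoeff, hr] at this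
    rw [h3, Int.cast_one, one_mul] at h2
    linear_combination -h2
  have h2 : ‖y‖ ^ r ≤ ∑ i ∈ Finset.range r, ‖y‖ ^ r * (1 / 2) ^ (r - i) := by
    have h3 : ‖y ^ r‖ ≤ ∑ i ∈ Finset.range r, ‖y‖ ^ r * (1 / 2) ^ (r - i) := by
      rw [h1, norm_neg]
      refine (norm_sum_le _ _).trans (Finset.sum_le_sum fun i hi => ?_)
      rw [Finset.mem_range] at hi
      rw [norm_mul, norm_pow, Complex.norm_intCast]
      calc |((Q.coeff i : ℤ) : ℝ)| * ‖y‖ ^ i ≤ ρ ^ (r - i) * ‖y‖ ^ i := by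
            gcongr
            exact hc i hi
        _ ≤ (‖y‖ * (1 / 2)) ^ (r - i) * ‖y‖ ^ i := by
            gcongr
            linarith
        _ = ‖y‖ ^ r * (1 / 2) ^ (r - i) := by
            rw [mul_pow]
            have : ‖y‖ ^ r = ‖y‖ ^ (r - i) * ‖y‖ ^ i := by
              rw [← pow_add, Nat.sub_add_cancel hi.le]
            rw [this]
            ring
    rwa [norm_pow] at h3
  rw [← Finset.mul_sum] at h2
  have h3 := geom_half r
  have h4 : 0 < ‖y‖ ^ r := by positivity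
  nlinarith

theorem main {n r : ℕ} (hn : 70 * r ≤ n) (P : ℤ[X]) (hP : P.Monic) (hr : P.natDegree = r)
    (hRR : RiemannRoch n P) (c : ℤ) (hx : ∀ x ∈ rootsOf P, ‖x - c‖ ≤ n / 12) :
    ∃ s : Multiset ℤ, P = (s.map fun a => X - C a).prod := by
  rcases Nat.eq_zero_or_pos r with hr0 | hr0
  · refine ⟨0, ?_⟩
    rw [Multiset.map_zero, Multiset.prod_zero]
    exact hP.natDegree_eq_zero.1 (hr.trans hr0)
  · apply splits_of P hP
    apply roots_int P hP hr hRR hr0 (h := (n + 1 - r) / 2) (R := (n + 1 - r) / 2 / 5)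
      (by omega) (by omega) (by omega) c
    intro x hx'
    refine (hx x hx').trans ?_
    rw [div_le_iff₀ (by norm_num)]
    have : n ≤ (n + 1 - r) / 2 / 5 * 12 := by omega
    exact_mod_cast this

theorem main_coeff {n r : ℕ} (hn : 70 * r ≤ n) (P : ℤ[X]) (hP : P.Monic)
    (hr : P.natDegree = r) (hRR : RiemannRoch n P) (c : ℤ)
    (hc : ∀ i < r, |(((P.comp (X + C c)).coeff i : ℤ) : ℝ)| ≤ ((n : ℝ) / 24) ^ (r - i)) :
    ∃ s : Multiset ℤ, P = (s.map fun a => X - C a).prod := by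
  rcases Nat.eq_zero_or_pos r with hr0 | hr0
  · refine ⟨0, ?_⟩
    rw [Multiset.map_zero, Multiset.prod_zero]
    exact hP.natDegree_eq_zero.1 (hr.trans hr0)
  · apply main hn P hP hr hRR c
    intro x hx
    have hn0 : (0 : ℝ) < n := by
      have : 0 < n := by omega
      exact_mod_cast this
    have h1 := root_bound (Q := P.comp (X + C c)) (r := r) (ρ := (n : ℝ) / 24) (by positivity)
      (hP.comp_X_add_C c) (by rw [natDegree_comp, natDegree_X_add_C, mul_one, hr]) hc
      (y := x - c) (by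
        rw [aeval_comp, map_add, aeval_X, aeval_C]
        have h2 : (x - c + (algebraMap ℤ ℂ) c) = x := by simp
        rw [h2]
        have h3 := (mem_roots'.1 hx).2
        rw [IsRoot, eval_map] at h3
        exact h3)
    refine h1.trans (le_of_eq ?_)
    ring

end Pool.Agent.R920.CH
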