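import Pool.Agent.R920.CH.Main

/-!
# The Riemann-Roch conditions for rank two
-/

open Polynomial

namespace Pool.Agent.R920.CH

/-- The Chern polynomial of rank two. -/
noncomputable def poly2 (c₁ c₂ : ℤ) : ℤ[X] := X ^ 2 - C c₁ * X + C c₂

lemma poly2_monic (c₁ c₂ : ℤ) : (poly2 c₁ c₂).Monic := by
  unfold poly2
  monicity!

lemma poly2_natDegree (c₁ c₂ : ℤ) : (poly2 c₁ c₂).natDegree = 2 := by
  unfold poly2
  compute_degree!

lemma roots2 (c₁ c₂ : ℤ) : ∃ x y : ℂ, rootsOf (poly2 c₁ c₂) = {x, y} ∧ x + y = c₁ ∧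
    x * y = c₂ := by
  have hcard : Multiset.card (rootsOf (poly2 c₁ c₂)) = 2 := by
    rw [rootsOf, splits_iff_card_roots.1 (IsAlgClosed.splits _),
      (poly2_monic c₁ c₂).natDegree_map, poly2_natDegree]
  obtain ⟨x, y, hxy⟩ := Multiset.card_eq_two.1 hcard
  refine ⟨x, y, hxy, ?_⟩
  have h2 := (IsAlgClosed.splits ((poly2 c₁ c₂).map (Int.castRingHom ℂ))).eq_prod_roots
  rw [((poly2_monic c₁ c₂).map _).leadingCoeff, C_1, one_mul] at h2
  have h3 : ((poly2 c₁ c₂).map (Int.castRingHom ℂ)).roots = {x, y} := hxy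
  rw [h3] at h2
  have h4 : (poly2 c₁ c₂).map (Int.castRingHom ℂ) = X ^ 2 - C (c₁ : ℂ) * X + C (c₂ : ℂ) := by
    unfold poly2
    simp
  rw [h4] at h2
  have h5 : (Multiset.map (fun a => X - C a) ({x, y} : Multiset ℂ)).prod =
      (X - C x) * (X - C y) := by
    simp
  rw [h5] at h2
  have e0 := congrArg (Polynomial.eval 0) h2
  have e1 := congrArg (Polynomial.eval 1) h2
  simp only [eval_add, eval_sub, eval_mul, eval_pow, eval_X, eval_C] at e0 e1
  constructor
  · linear_combination e1 - e0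
  · linear_combination -e0

/-- The symmetric product. -/
lemma prod_symm (h : ℕ) (y : ℂ) : ∏ j ∈ Finset.range (2 * h), (y + h - 1 - j) =
    ∏ j ∈ Finset.range h, ((y - (j + 1)) * (y + j)) := by
  induction h with
  | zero => simp
  | succ h ih =>
    rw [Finset.prod_range_succ (fun j : ℕ => ((y - ((j : ℂ) + 1)) * (y + j))), ← ih]
    have e : 2 * (h + 1) = (2 * h + 1) + 1 := by ring
    rw [e, Finset.prod_range_succ, Finset.prod_range_succ']
    have h1 : ∏ j ∈ Finset.range (2 * h), (y + ((h + 1 : ℕ) : ℂ) - 1 - ((j + 1 : ℕ) : ℂ)) =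
        ∏ j ∈ Finset.range (2 * h), (y + h - 1 - j) := by
      refine Finset.prod_congr rfl fun j _ => ?_
      push_cast
      ring
    rw [h1]
    push_cast
    ring

lemma prod_eval (h : ℕ) (y e D : ℂ) (hy : y ^ 2 - y + e = 0) (hD : D = 1 - 4 * e) :
    4 ^ h * ∏ j ∈ Finset.range h, ((y - (j + 1)) * (y + j)) =
      ∏ j ∈ Finset.range h, (D - (2 * j + 1) ^ 2) := by
  induction h with
  | zero => simp
  | succ h ih =>
    rw [Finset.prod_range_succ, Finset.prod_range_succ, ← ih, hD, pow_succ]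
    linear_combination (4 ^ h * 4 * ∏ x ∈ Finset.range h, (y - (↑x + 1)) * (y + ↑x)) * hy

lemma prod_eval0 (h : ℕ) (y e D : ℂ) (hy : y ^ 2 + e = 0) (hD : D = - 4 * e) :
    4 ^ (h + 1) * (∏ j ∈ Finset.range (h + 1), ((y - (j + 1)) * (y + j)) +
      ∏ j ∈ Finset.range (h + 1), ((-y - (j + 1)) * (-y + j))) =
      2 * ∏ j ∈ Finset.range (h + 1), (D - (2 * j) ^ 2) := by
  have key : ∀ (h : ℕ) (y : ℂ), y ^ 2 + e = 0 →
      y * (4 ^ (h + 1) * ∏ j ∈ Finset.range (h + 1), ((y - (j + 1)) * (y + j))) =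
      (y - (h + 1)) * ∏ j ∈ Finset.range (h + 1), (D - (2 * j) ^ 2) := by
    intro h y hy
    induction h with
    | zero =>
      simp
      rw [hD]
      linear_combination (4 * (y - 1)) * hy
    | succ h ih =>
      rw [Finset.prod_range_succ, Finset.prod_range_succ (fun j : ℕ => (D - (2 * (j : ℂ)) ^ 2)),
        pow_succ]
      push_cast
      have h1 : y * (4 ^ (h + 1) * 4 * ((∏ j ∈ Finset.range (h + 1), ((y - (j + 1)) * (y + j))) *
          ((y - ((h : ℂ) + 1 + 1)) * (y + ((h : ℂ) + 1))))) =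
          4 * ((y - ((h : ℂ) + 1 + 1)) * (y + ((h : ℂ) + 1))) *
          (y * (4 ^ (h + 1) * ∏ j ∈ Finset.range (h + 1), ((y - (j + 1)) * (y + j)))) := by
        ring
      rw [h1, ih, hD]
      linear_combination (4 * (y - ((h : ℂ) + 1 + 1)) *
        ∏ j ∈ Finset.range (h + 1), (-4 * e - (2 * (j : ℂ)) ^ 2)) * hy
  rcases eq_or_ne y 0 with h0 | h0
  · rw [h0] at hy ⊢
    have he : e = 0 := by linear_combination hy
    rw [Finset.prod_eq_zero (i := 0) (Finset.mem_range.2 (Nat.succ_pos h)) (by simp),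
      Finset.prod_eq_zero (i := 0) (Finset.mem_range.2 (Nat.succ_pos h)) (by simp),
      Finset.prod_eq_zero (i := 0) (Finset.mem_range.2 (Nat.succ_pos h)) (by
        rw [hD, he]
        simp)]
    ring
  · have h1 := key h y hy
    have h2 := key h (-y) (by linear_combination hy)
    apply mul_left_cancel₀ h0
    linear_combination h1 - h2

/-- The integer in the Riemann-Roch condition for the symmetric binomial polynomial. -/
theorem divis {n : ℕ} {c₁ c₂ : ℤ} (hRR : RiemannRoch n (poly2 c₁ c₂)) {h : ℕ} (h1 : 1 ≤ h)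
    (h2 : 2 * h ≤ n) : (2 ^ (2 * h - 1) * (2 * h).factorial : ℤ) ∣
      ∏ j ∈ Finset.range h, (c₁ ^ 2 - 4 * c₂ - (2 * j + c₁ % 2) ^ 2) := by
  obtain ⟨x, y, hxy, hs, hp⟩ := roots2 c₁ c₂
  set s : ℤ := c₁ / 2 with hsdef
  have hc : c₁ = 2 * s + c₁ % 2 := by omega
  set f : ℚ[X] := (bin (2 * h)).comp (X + C ((h - 1 - s : ℤ) : ℚ)) with hf
  obtain ⟨z, hz⟩ := hRR f (intVal_comp (bin_int _) _) (by
    rw [hf, natDegree_comp, natDegree_X_add_C, mul_one]
    exact (natDegree_bin _).trans h2)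
  have hval : ∀ x : ℂ, ((2 * h).factorial : ℂ) * aeval x f =
      ∏ j ∈ Finset.range h, (((x - s) - (j + 1)) * ((x - s) + j)) := by
    intro x
    rw [hf, aeval_comp, map_add, aeval_X, aeval_C, aeval_bin, ← prod_symm, ← mul_assoc,
      mul_inv_cancel₀ (by exact_mod_cast (2 * h).factorial_ne_zero), one_mul]
    refine Finset.prod_congr rfl fun j _ => ?_
    simp only [eq_ratCast, Rat.cast_intCast]
    push_cast
    ring
  rw [hxy] at hz
  have hz' : aeval x f + aeval y f = z := by simpa using hz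
  have hkey : (4 : ℂ) ^ h * ((2 * h).factorial * z) =
      2 * ∏ j ∈ Finset.range h, ((c₁ : ℂ) ^ 2 - 4 * c₂ - (2 * j + ((c₁ % 2 : ℤ) : ℂ)) ^ 2) := by
    rw [← hz', mul_add, hval x, hval y]
    have hcc : (c₁ : ℂ) = 2 * s + ((c₁ % 2 : ℤ) : ℂ) := by exact_mod_cast hc
    rcases Int.emod_two_eq_zero_or_one c₁ with h0 | h0
    · rw [h0] at hcc ⊢
      rw [Int.cast_zero, add_zero] at hcc
      obtain ⟨k, rfl⟩ : ∃ k, h = k + 1 := ⟨h - 1, by omega⟩
      have hy : y - s = -(x - s) := by linear_combination hs + hcc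
      rw [hy]
      have h3 := prod_eval0 k (x - s) (c₂ - s ^ 2) ((c₁ : ℂ) ^ 2 - 4 * c₂)
        (by
          rw [← hp]
          have : y = 2 * s - x := by linear_combination hs + hcc
          rw [this]
          ring)
        (by rw [hcc]; ring)
      rw [h3]
      congr 1
      refine Finset.prod_congr rfl fun j _ => ?_
      simp
    · rw [h0] at hcc ⊢
      rw [Int.cast_one] at hcc
      have h3 : ∀ t : ℂ, t = x ∨ t = y → (4 : ℂ) ^ h * ∏ j ∈ Finset.range h,
          (((t - s) - (j + 1)) * ((t - s) + j)) =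
          ∏ j ∈ Finset.range h, (((c₁ : ℂ) ^ 2 - 4 * c₂) - (2 * j + 1) ^ 2) := by
        intro t ht
        apply prod_eval h (t - s) (c₂ - s - s ^ 2)
        · have hx' : x ^ 2 - c₁ * x + c₂ = 0 := by
            rw [← hs, ← hp]
            ring
          have hy' : y ^ 2 - c₁ * y + c₂ = 0 := by
            rw [← hs, ← hp]
            ring
          rcases ht with rfl | rfl
          · rw [hcc] at hx'
            linear_combination hx'
          · rw [hcc] at hy'
            linear_combination hy'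
        · rw [hcc]
          ring
      rw [mul_add, h3 x (Or.inl rfl), h3 y (Or.inr rfl)]
      have h4 : ∏ j ∈ Finset.range h, ((c₁ : ℂ) ^ 2 - 4 * c₂ - (2 * j + ((1 : ℤ) : ℂ)) ^ 2) =
          ∏ j ∈ Finset.range h, (((c₁ : ℂ) ^ 2 - 4 * c₂) - (2 * j + 1) ^ 2) := by
        refine Finset.prod_congr rfl fun j _ => ?_
        simp
      rw [h4]
      ring
  have hint : (4 : ℤ) ^ h * ((2 * h).factorial * z) =
      2 * ∏ j ∈ Finset.range h, (c₁ ^ 2 - 4 * c₂ - (2 * j + c₁ % 2) ^ 2) := by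
    exact_mod_cast hkey
  refine ⟨z, ?_⟩
  have h5 : (4 : ℤ) ^ h = 2 * 2 ^ (2 * h - 1) := by
    rw [← pow_succ', show 2 * h - 1 + 1 = 2 * h by omega, pow_mul]
    norm_num
  rw [h5] at hint
  linarith

end Pool.Agent.R920.CH
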