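import Pool.Agent.R920.CH.Two

/-!
# Bounds for the discriminant
-/

open Polynomial

namespace Pool.Agent.R920.CH

/-- The product for a negative discriminant is small if the discriminant is small. -/
lemma prod_small_neg (h : ℕ) (h1 : 1 ≤ h) (A : ℝ) (hA0 : 0 ≤ A) (hA : A ≤ 4 / 5 * h ^ 2)
    (ε : ℕ) (hε : ε ≤ 1) :
    ∏ j ∈ Finset.range h, (A + (2 * (j : ℝ) + ε) ^ 2) <
      2 ^ (2 * h - 1) * ((2 * h).factorial : ℝ) := by
  have hh : (0 : ℝ) < h := by exact_mod_cast h1
  have hh1 : (1 : ℝ) ≤ h := by exact_mod_cast h1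
  -- the sum
  have hsum : ∑ j ∈ Finset.range h, (A + (2 * (j : ℝ) + ε) ^ 2) ≤ h * (A + 4 / 3 * h ^ 2) := by
    have h2 : ∀ h : ℕ, ∑ j ∈ Finset.range h, (A + (2 * (j : ℝ) + 1) ^ 2) ≤
        h * (A + 4 / 3 * h ^ 2) := by
      intro h
      induction h with
      | zero => simp
      | succ h ih =>
        rw [Finset.sum_range_succ]
        push_cast
        have : (0 : ℝ) ≤ h := Nat.cast_nonneg h
        nlinarith
    refine le_trans (Finset.sum_le_sum fun j _ => ?_) (h2 h)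
    have h3 : (ε : ℝ) ≤ 1 := by exact_mod_cast hε
    have h4 : (0 : ℝ) ≤ ε := Nat.cast_nonneg ε
    have h5 : (0 : ℝ) ≤ j := Nat.cast_nonneg j
    gcongr
  have hnn : ∀ j ∈ Finset.range h, 0 ≤ A + (2 * (j : ℝ) + ε) ^ 2 := fun j _ => by positivity
  -- arithmetic and geometric means
  have ham : ∏ j ∈ Finset.range h, (A + (2 * (j : ℝ) + ε) ^ 2) ≤ (A + 4 / 3 * h ^ 2) ^ h := by
    have h2 := Real.geom_mean_le_arith_mean_weighted (Finset.range h) (fun _ => (h : ℝ)⁻¹)
      (fun j => A + (2 * (j : ℝ) + ε) ^ 2) (fun _ _ => by positivity) (by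
        rw [Finset.sum_const, Finset.card_range, nsmul_eq_mul, mul_inv_cancel₀ hh.ne']) hnn
    rw [← Finset.mul_sum] at h2
    have h3 : (∏ j ∈ Finset.range h, (A + (2 * (j : ℝ) + ε) ^ 2) ^ ((h : ℝ)⁻¹)) ^ h =
        ∏ j ∈ Finset.range h, (A + (2 * (j : ℝ) + ε) ^ 2) := by
      rw [← Finset.prod_pow]
      refine Finset.prod_congr rfl fun j hj => ?_
      rw [← Real.rpow_natCast, ← Real.rpow_mul (hnn j hj), inv_mul_cancel₀ hh.ne', Real.rpow_one]
    rw [← h3]
    apply pow_le_pow_left₀ (Finset.prod_nonneg fun j hj => Real.rpow_nonneg (hnn j hj) _)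
    refine h2.trans ?_
    rw [inv_mul_le_iff₀ hh]
    exact hsum
  have hst := Stirling.le_factorial_stirling (2 * h)
  have he : Real.exp 1 ^ 2 < 15 / 2 := by
    have h2 := Real.exp_one_lt_d9
    have h3 := Real.exp_pos 1
    nlinarith
  have hep : 0 < Real.exp 1 := Real.exp_pos 1
  have hpi : (2 : ℝ) < √(2 * Real.pi * ((2 * h : ℕ) : ℝ)) := by
    apply Real.lt_sqrt_of_sq_lt
    have := Real.pi_gt_three
    push_cast
    nlinarith
  have hbase : (A + 4 / 3 * (h : ℝ) ^ 2) ≤ 4 * (((2 * h : ℕ) : ℝ) / Real.exp 1) ^ 2 := by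
    have h2 : (4 : ℝ) * (((2 * h : ℕ) : ℝ) / Real.exp 1) ^ 2 = 16 * h ^ 2 / Real.exp 1 ^ 2 := by
      push_cast
      rw [div_pow]
      ring
    rw [h2, le_div_iff₀ (by positivity)]
    have h3 : A + 4 / 3 * (h : ℝ) ^ 2 ≤ 32 / 15 * h ^ 2 := by linarith
    calc (A + 4 / 3 * (h : ℝ) ^ 2) * Real.exp 1 ^ 2 ≤ 32 / 15 * (h : ℝ) ^ 2 * (15 / 2) := by
          gcongr
      _ = 16 * (h : ℝ) ^ 2 := by ring
  have h4h : (2 : ℝ) ^ (2 * h - 1) * 2 = 4 ^ h := by
    rw [← pow_succ, show 2 * h - 1 + 1 = 2 * h by omega, pow_mul]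
    norm_num
  have hX : (0 : ℝ) < (((2 * h : ℕ) : ℝ) / Real.exp 1) ^ (2 * h) := by
    have : (0 : ℝ) < ((2 * h : ℕ) : ℝ) := by
      push_cast
      linarith
    positivity
  calc ∏ j ∈ Finset.range h, (A + (2 * (j : ℝ) + ε) ^ 2)
      ≤ (A + 4 / 3 * h ^ 2) ^ h := ham
    _ ≤ (4 * (((2 * h : ℕ) : ℝ) / Real.exp 1) ^ 2) ^ h := by
        apply pow_le_pow_left₀ (by positivity) hbase
    _ = 2 ^ (2 * h - 1) * (2 * (((2 * h : ℕ) : ℝ) / Real.exp 1) ^ (2 * h)) := by
        rw [mul_pow, ← pow_mul, ← h4h]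
        ring
    _ < 2 ^ (2 * h - 1) * (√(2 * Real.pi * ((2 * h : ℕ) : ℝ)) *
          (((2 * h : ℕ) : ℝ) / Real.exp 1) ^ (2 * h)) := by
        gcongr
    _ ≤ 2 ^ (2 * h - 1) * ((2 * h).factorial : ℝ) := by
        gcongr

lemma fact_aux (k a : ℕ) : (k + 1).factorial * (a + k + 1).factorial ≤
    (a + 2 * k + 1).factorial := by
  induction k with
  | zero => simp
  | succ k ih =>
    have e1 : (k + 1 + 1).factorial = (k + 2) * (k + 1).factorial := Nat.factorial_succ _
    have e2 : (a + (k + 1) + 1).factorial = (a + k + 2) * (a + k + 1).factorial := by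
      have : a + (k + 1) + 1 = (a + k + 1) + 1 := by ring
      rw [this, Nat.factorial_succ]
    have e3 : (a + 2 * (k + 1) + 1).factorial =
        (a + 2 * k + 3) * ((a + 2 * k + 2) * (a + 2 * k + 1).factorial) := by
      have : a + 2 * (k + 1) + 1 = (a + 2 * k + 1) + 1 + 1 := by ring
      rw [this, Nat.factorial_succ, Nat.factorial_succ]
    rw [e1, e2, e3]
    calc (k + 2) * (k + 1).factorial * ((a + k + 2) * (a + k + 1).factorial)
        = (k + 2) * (a + k + 2) * ((k + 1).factorial * (a + k + 1).factorial) := by ring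
      _ ≤ ((a + 2 * k + 3) * (a + 2 * k + 2)) * (a + 2 * k + 1).factorial := by
          apply Nat.mul_le_mul _ ih
          nlinarith
      _ = _ := by ring

/-- The product for a positive discriminant. -/
lemma prod_small_pos (m k ε : ℕ) (hε : ε ≤ 1) (D : ℤ) (hD1 : (2 * m + ε : ℤ) ^ 2 ≤ D)
    (hD2 : D < (2 * m + 2 + ε : ℤ) ^ 2) :
    |∏ j ∈ Finset.range (m + 1 + (k + 1)), (D - (2 * (j : ℤ) + ε) ^ 2)| <
      2 ^ (2 * (m + 1 + (k + 1)) - 1) * ((2 * (m + 1 + (k + 1))).factorial : ℤ) := by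
  rw [Finset.prod_range_add, abs_mul, Finset.abs_prod, Finset.abs_prod]
  have hA : ∏ j ∈ Finset.range (m + 1), |D - (2 * (j : ℤ) + ε) ^ 2| ≤
      ∏ j ∈ Finset.range (m + 1), (4 * ((m + 1 - j : ℕ) : ℤ) * ((m + ε + 1 + j : ℕ) : ℤ)) := by
    refine Finset.prod_le_prod (fun _ _ => abs_nonneg _) fun j hj => ?_
    rw [Finset.mem_range] at hj
    obtain ⟨i, rfl⟩ : ∃ i, m = j + i := ⟨m - j, by omega⟩
    have e : j + i + 1 - j = i + 1 := by omega
    rw [e, abs_of_nonneg]
    · push_cast at hD2 ⊢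
      nlinarith
    · push_cast at hD1
      nlinarith
  have hB : ∏ j ∈ Finset.range (k + 1), |D - (2 * ((m + 1 + j : ℕ) : ℤ) + ε) ^ 2| ≤
      ∏ j ∈ Finset.range (k + 1), (4 * ((j + 1 : ℕ) : ℤ) * ((2 * m + ε + 1 + j : ℕ) : ℤ)) := by
    refine Finset.prod_le_prod (fun _ _ => abs_nonneg _) fun j hj => ?_
    rw [abs_of_nonpos]
    · push_cast at hD1 ⊢
      nlinarith
    · have hj0 : (0 : ℤ) ≤ j := Int.natCast_nonneg j
      have hm0 : (0 : ℤ) ≤ m := Int.natCast_nonneg m
      have he0 : (0 : ℤ) ≤ ε := Int.natCast_nonneg ε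
      have h1 : (2 * (m : ℤ) + 2 + ε) ^ 2 ≤ (2 * ((m + 1 + j : ℕ) : ℤ) + ε) ^ 2 := by
        apply pow_le_pow_left₀ (by positivity)
        push_cast
        linarith
      linarith
  have hA' : ∏ j ∈ Finset.range (m + 1), (4 * ((m + 1 - j : ℕ) : ℤ) *
      ((m + ε + 1 + j : ℕ) : ℤ)) =
      4 ^ (m + 1) * (m + 1).factorial * (m + ε + 1).ascFactorial (m + 1) := by
    rw [Finset.prod_mul_distrib, Finset.prod_mul_distrib, Finset.prod_const, Finset.card_range,
      Nat.ascFactorial_eq_prod_range]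
    have e : (∏ j ∈ Finset.range (m + 1), ((m + 1 - j : ℕ) : ℤ)) = ((m + 1).factorial : ℤ) := by
      rw [← Finset.prod_range_add_one_eq_factorial, ← Finset.prod_range_reflect]
      push_cast
      refine Finset.prod_congr rfl fun j hj => ?_
      rw [Finset.mem_range] at hj
      have h1 : ((m + 1 - (m - j) : ℕ) : ℤ) = j + 1 := by
        rw [show m + 1 - (m - j) = j + 1 by omega]
        push_cast
        rfl
      exact h1
    rw [e]
    push_cast
    rfl
  have hB' : ∏ j ∈ Finset.range (k + 1), (4 * ((j + 1 : ℕ) : ℤ) *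
      ((2 * m + ε + 1 + j : ℕ) : ℤ)) =
      4 ^ (k + 1) * (k + 1).factorial * (2 * m + ε + 1).ascFactorial (k + 1) := by
    rw [Finset.prod_mul_distrib, Finset.prod_mul_distrib, Finset.prod_const, Finset.card_range,
      Nat.ascFactorial_eq_prod_range, ← Finset.prod_range_add_one_eq_factorial]
    push_cast
    rfl
  have hmain : 2 * ((m + 1).factorial * (m + ε + 1).ascFactorial (m + 1)) *
      ((k + 1).factorial * (2 * m + ε + 1).ascFactorial (k + 1)) <
      (2 * (m + 1 + (k + 1))).factorial := by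
    have e1 := Nat.factorial_mul_ascFactorial (m + ε) (m + 1)
    have e2 := Nat.factorial_mul_ascFactorial (2 * m + ε) (k + 1)
    have h1 : (m + 1).factorial * (m + ε + 1).ascFactorial (m + 1) ≤
        (m + 1) * (m + ε + (m + 1)).factorial := by
      rw [← e1, Nat.factorial_succ, mul_assoc]
      apply Nat.mul_le_mul_left
      apply Nat.mul_le_mul_right
      exact Nat.factorial_le (by omega)
    have h2 : (m + ε + (m + 1)).factorial = (2 * m + ε + 1) * (2 * m + ε).factorial := by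
      have : m + ε + (m + 1) = 2 * m + ε + 1 := by ring
      rw [this, Nat.factorial_succ]
    have h3 := fact_aux k (2 * m + ε)
    have h4 : (2 * m + ε + (k + 1)).factorial = (2 * m + ε + k + 1).factorial := by
      congr 1
    have h5 : (2 * (m + 1 + (k + 1))).factorial ≥
        (2 * m + 2 * k + 4) * (2 * m + 2 * k + 3) * (2 * m + 2 * k + 2).factorial := by
      have : 2 * (m + 1 + (k + 1)) = (2 * m + 2 * k + 2) + 1 + 1 := by ring
      rw [this, Nat.factorial_succ, Nat.factorial_succ]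
      apply le_of_eq
      ring
    have h6 : (2 * m + ε + 2 * k + 1).factorial ≤ (2 * m + 2 * k + 2).factorial :=
      Nat.factorial_le (by omega)
    have h7 : 0 < (2 * m + 2 * k + 2).factorial := Nat.factorial_pos _
    calc 2 * ((m + 1).factorial * (m + ε + 1).ascFactorial (m + 1)) *
          ((k + 1).factorial * (2 * m + ε + 1).ascFactorial (k + 1))
        ≤ 2 * ((m + 1) * (m + ε + (m + 1)).factorial) *
          ((k + 1).factorial * (2 * m + ε + 1).ascFactorial (k + 1)) := by gcongr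
      _ = 2 * (m + 1) * (2 * m + ε + 1) * ((k + 1).factorial *
          ((2 * m + ε).factorial * (2 * m + ε + 1).ascFactorial (k + 1))) := by
          rw [h2]
          ring
      _ = 2 * (m + 1) * (2 * m + ε + 1) * ((k + 1).factorial *
          (2 * m + ε + k + 1).factorial) := by rw [e2, h4]
      _ ≤ 2 * (m + 1) * (2 * m + ε + 1) * (2 * m + 2 * k + 2).factorial := by
          apply Nat.mul_le_mul_left
          exact h3.trans h6
      _ < (2 * m + 2 * k + 4) * (2 * m + 2 * k + 3) * (2 * m + 2 * k + 2).factorial := by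
          apply Nat.mul_lt_mul_of_pos_right _ h7
          nlinarith
      _ ≤ _ := h5
  have h4 : (2 : ℤ) ^ (2 * (m + 1 + (k + 1)) - 1) * 2 = 4 ^ (m + 1) * 4 ^ (k + 1) := by
    rw [← pow_succ, ← pow_add,
      show 2 * (m + 1 + (k + 1)) - 1 + 1 = 2 * (m + 1 + (k + 1)) by omega, pow_mul]
    norm_num
  have hBnn : (0 : ℤ) ≤ ∏ j ∈ Finset.range (k + 1), |D - (2 * ((m + 1 + j : ℕ) : ℤ) + ε) ^ 2| :=
    Finset.prod_nonneg fun _ _ => abs_nonneg _
  have hfin := mul_le_mul hA hB hBnn (le_trans (Finset.prod_nonneg fun _ _ => abs_nonneg _) hA)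
  rw [hA', hB'] at hfin
  refine lt_of_le_of_lt hfin ?_
  have hmain' : (2 : ℤ) * ((m + 1).factorial * (m + ε + 1).ascFactorial (m + 1)) *
      ((k + 1).factorial * (2 * m + ε + 1).ascFactorial (k + 1)) <
      (2 * (m + 1 + (k + 1))).factorial := by exact_mod_cast hmain
  have h2p : (0 : ℤ) < 2 ^ (2 * (m + 1 + (k + 1)) - 1) := by positivity
  have h8 := mul_lt_mul_of_pos_left hmain' h2p
  refine lt_of_eq_of_lt ?_ h8
  linear_combination (-((m + 1).factorial * (m + ε + 1).ascFactorial (m + 1) : ℤ) *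
      ((k + 1).factorial * (2 * m + ε + 1).ascFactorial (k + 1))) * h4

end Pool.Agent.R920.CH
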